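import Pool.Agent.helper32.NN.Spec

/-!
# nn:FIX — finite index
-/

set_option autoImplicit false

open Submodule

noncomputable section

namespace Pool.Agent.NN

universe u v

set_option linter.unusedSectionVars false

open Classical in
/-- the number of visits of the coset `c` by the partial products -/
def FIX_vis {G : Type} [Group G] (H : Subgroup G) (c : G ⧸ H) : G → List G → ℕ
  | p, [] => if (p : G ⧸ H) = c then 1 else 0
  | p, g :: l => (if (p : G ⧸ H) = c then 1 else 0) + FIX_vis H c (p * g) l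

theorem FIX_sum {G : Type} [Group G] (H : Subgroup G) [Fintype (G ⧸ H)] (l : List G) :
    ∀ p : G, ∑ c : G ⧸ H, FIX_vis H c p l = l.length + 1 := by
  classical
  induction l with
  | nil => intro p; simp [FIX_vis]
  | cons g l ih =>
    intro p
    simp only [FIX_vis, Finset.sum_add_distrib, ih, List.length_cons]
    simp
    omega

section
variable {K : Type u} {U : Type v} [Field K] [Ring U] [Algebra K U] {G : Type} [Group G]
  (𝒜 : G → Submodule K U) (H : Subgroup G) (B : Submodule K U)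

theorem FIX_blk (hmul : ∀ g h, 𝒜 g * 𝒜 h ≤ 𝒜 (g * h)) (hB : ∀ h ∈ H, 𝒜 h ≤ B) (c : G ⧸ H) (l : List G) :
    ∀ q x : G, (q : G ⧸ H) = c → 𝒜 x * (l.map 𝒜).prod ≤ B ^ (FIX_vis H c (q * x) l) * ⊤ := by
  induction l with
  | nil =>
    intro q x hq
    by_cases h : ((q * x : G) : G ⧸ H) = c
    · have hx : x ∈ H := by
        rw [← hq, QuotientGroup.eq] at h
        have := H.inv_mem h
        simpa [mul_assoc] using this
      simp only [FIX_vis, if_pos h, List.map_nil, List.prod_nil, pow_one]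
      exact mul_le_mul' (hB x hx) le_top
    · simp only [FIX_vis, if_neg h, List.map_nil, List.prod_nil, pow_zero]
      rw [one_mul]
      exact le_top
  | cons g l ih =>
    intro q x hq
    by_cases h : ((q * x : G) : G ⧸ H) = c
    · have hx : x ∈ H := by
        rw [← hq, QuotientGroup.eq] at h
        have := H.inv_mem h
        simpa [mul_assoc] using this
      simp only [FIX_vis, if_pos h, List.map_cons, List.prod_cons, pow_add, pow_one]
      rw [mul_assoc B]
      exact mul_le_mul' (hB x hx) (ih (q * x) g h)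
    · simp only [FIX_vis, if_neg h, List.map_cons, List.prod_cons, zero_add]
      rw [← mul_assoc]
      refine (mul_le_mul' (hmul x g) le_rfl).trans ?_
      have := ih q (x * g) hq
      rwa [← mul_assoc q x g] at this

theorem FIX_tot (hmul : ∀ g h, 𝒜 g * 𝒜 h ≤ 𝒜 (g * h)) (hB : ∀ h ∈ H, 𝒜 h ≤ B) (c : G ⧸ H) (l : List G) :
    ∀ p : G, (l.map 𝒜).prod ≤ ⊤ * (B ^ (FIX_vis H c p l - 1) * ⊤) := by
  induction l with
  | nil =>
    intro p
    have h0 : FIX_vis H c p [] - 1 = 0 := by
      simp only [FIX_vis]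
      split_ifs <;> rfl
    rw [h0, pow_zero, one_mul, List.map_nil, List.prod_nil]
    calc (1 : Submodule K U) = 1 * 1 := (one_mul _).symm
      _ ≤ ⊤ * ⊤ := mul_le_mul' le_top le_top
  | cons g l ih =>
    intro p
    by_cases h : (p : G ⧸ H) = c
    · simp only [FIX_vis, if_pos h, List.map_cons, List.prod_cons, Nat.add_sub_cancel_left]
      refine (FIX_blk 𝒜 H B hmul hB c l p g h).trans ?_
      calc B ^ FIX_vis H c (p * g) l * ⊤ = 1 * (B ^ FIX_vis H c (p * g) l * ⊤) := (one_mul _).symm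
        _ ≤ _ := mul_le_mul' le_top le_rfl
    · simp only [FIX_vis, if_neg h, List.map_cons, List.prod_cons, zero_add]
      calc 𝒜 g * (l.map 𝒜).prod ≤ ⊤ * (⊤ * (B ^ (FIX_vis H c (p * g) l - 1) * ⊤)) :=
            mul_le_mul' le_top (ih (p * g))
        _ = (⊤ * ⊤) * (B ^ (FIX_vis H c (p * g) l - 1) * ⊤) := (mul_assoc _ _ _).symm
        _ ≤ _ := mul_le_mul' le_top le_rfl

theorem FIX_pow (n : ℕ) : ∀ X : Submodule K U, (∀ l : List G, l.length = n → X * (l.map 𝒜).prod = ⊥) →
    X * (⨆ g, 𝒜 g) ^ n = ⊥ := by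
  induction n with
  | zero =>
    intro X hX
    have := hX [] rfl
    simpa using this
  | succ n ih =>
    intro X hX
    rw [pow_succ', ← mul_assoc, Submodule.mul_iSup, Submodule.iSup_mul]
    refine iSup_eq_bot.2 fun g => ih _ fun l hl => ?_
    have := hX (g :: l) (by simp [hl])
    rw [List.map_cons, List.prod_cons, ← mul_assoc] at this
    exact this

end

theorem FIX : FIX_stmt.{u, v} := by
  intro K U _ _ _ A hA G _ 𝒜 hG H hH g hg
  by_contra hgH
  set B : Submodule K U := ⨆ h : G, ⨆ (_ : h ∈ H), 𝒜 h with hBdef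
  have hB : ∀ h ∈ H, 𝒜 h ≤ B := fun h hh => le_iSup₂_of_le h hh le_rfl
  have hBA : B ≤ A := by
    rw [← hG.sup]
    exact iSup₂_le fun h _ => le_iSup 𝒜 h
  have hBB : B * B ≤ B := by
    rw [hBdef]
    simp only [Submodule.iSup_mul, Submodule.mul_iSup]
    refine iSup₂_le fun h hh => iSup₂_le fun h' hh' => ?_
    refine (hG.mul _ _).trans ?_
    exact le_iSup₂_of_le _ (H.mul_mem (by assumption) (by assumption)) le_rfl
  have hne : B ≠ A := by
    intro e
    have h1 : 𝒜 g ≤ ⨆ (j : G) (_ : j ≠ g), 𝒜 j := by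
      calc 𝒜 g ≤ A := by rw [← hG.sup]; exact le_iSup 𝒜 g
        _ = B := e.symm
        _ ≤ _ := by
          refine iSup₂_le fun h hh => ?_
          have hne' : h ≠ g := by
            rintro rfl
            exact hgH hh
          exact le_iSup₂_of_le h hne' le_rfl
    exact hg ((hG.ind g).eq_bot_of_le h1)
  obtain ⟨d, hd⟩ := hA.prop B hBA hBB hne
  have := hH
  have : Fintype (G ⧸ H) := Fintype.ofFinite _
  apply hA.notn (Fintype.card (G ⧸ H) * d)
  have h1 := FIX_pow 𝒜 (Fintype.card (G ⧸ H) * d) (1 : Submodule K U) (by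
    intro l hl
    rw [one_mul]
    have hex : ∃ c : G ⧸ H, d < FIX_vis H c 1 l := by
      by_contra hno
      push Not at hno
      have h2 := FIX_sum H l 1
      have h3 : ∑ c : G ⧸ H, FIX_vis H c 1 l ≤ ∑ _c : G ⧸ H, d := Finset.sum_le_sum fun c _ => hno c
      rw [h2, Finset.sum_const, Finset.card_univ, hl, smul_eq_mul] at h3
      omega
    obtain ⟨c, hc⟩ := hex
    have h4 := FIX_tot 𝒜 H B hG.mul hB c l 1
    have h5 : B ^ (FIX_vis H c 1 l - 1) = ⊥ := by
      obtain ⟨e, he⟩ : ∃ e, FIX_vis H c 1 l - 1 = d + e := ⟨FIX_vis H c 1 l - 1 - d, by omega⟩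
      rw [he, pow_add, hd, Submodule.bot_mul]
    rw [h5, Submodule.bot_mul, Submodule.mul_bot] at h4
    exact le_bot_iff.1 h4)
  rw [one_mul, hG.sup] at h1
  exact h1

end Pool.Agent.NN
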